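import Pool.Agent.H76.SW.CT

/-!
Being a well formed simple program is primitive recursive.
-/

namespace Pool.Agent.H3.SW

open Pool.Agent.H76.SW

variable {α β γ : Type} [Primcodable α] [Primcodable β] [Primcodable γ]

theorem allMem {f : α → List β} {R : β → α → Prop} (hf : Primrec f) (hR : PrimrecRel R) :
    PrimrecPred fun a => ∀ b ∈ f a, R b a :=
  hR.forall_mem_list.comp hf Primrec.id

theorem exMem {f : α → List β} {R : β → α → Prop} (hf : Primrec f) (hR : PrimrecRel R) :
    PrimrecPred fun a => ∃ b ∈ f a, R b a :=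
  hR.exists_mem_list.comp hf Primrec.id

/-- Well formed automata. -/
theorem wfAut_prim : PrimrecPred fun p : ℕ × AutC => WfAut p.1 p.2 := by
  have hst : Primrec fun p : ℕ × AutC => p.2.1.1 :=
    Primrec.fst.comp (Primrec.fst.comp Primrec.snd)
  have hs : Primrec fun p : ℕ × AutC => p.2.1.2.1 :=
    Primrec.fst.comp (Primrec.snd.comp (Primrec.fst.comp Primrec.snd))
  have hf : Primrec fun p : ℕ × AutC => p.2.1.2.2 :=
    Primrec.snd.comp (Primrec.snd.comp (Primrec.fst.comp Primrec.snd))
  have ht : Primrec fun p : ℕ × AutC => p.2.2 := Primrec.snd.comp Primrec.snd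
  refine PrimrecPred.and (allMem hs (R := fun s p => s < p.2.1.1) ?_)
    (PrimrecPred.and (allMem hf (R := fun s p => s < p.2.1.1) ?_)
      (allMem ht (R := fun t p => t.1.1 < p.2.1.1 ∧ t.1.2.1 < p.1 ∧ t.2 < p.2.1.1) ?_))
  · exact Primrec.nat_lt.comp Primrec.fst (hst.comp Primrec.snd)
  · exact Primrec.nat_lt.comp Primrec.fst (hst.comp Primrec.snd)
  · refine PrimrecPred.and ?_ (PrimrecPred.and ?_ ?_)
    · exact Primrec.nat_lt.comp (Primrec.fst.comp (Primrec.fst.comp Primrec.fst))
        (hst.comp Primrec.snd)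
    · exact Primrec.nat_lt.comp (Primrec.fst.comp (Primrec.snd.comp (Primrec.fst.comp Primrec.fst)))
        (Primrec.fst.comp Primrec.snd)
    · exact Primrec.nat_lt.comp (Primrec.snd.comp Primrec.fst) (hst.comp Primrec.snd)

/-- Well formed queries. -/
theorem wfCq_prim (h1 : V_TP) (k : ℕ) :
    PrimrecPred fun p : (ℕ × ℕ) × CqC => WfCq p.1.1 p.1.2 k p.2 := by
  have hn : Primrec fun p : (ℕ × ℕ) × CqC => p.2.1.1 :=
    Primrec.fst.comp (Primrec.fst.comp Primrec.snd)
  have ho : Primrec fun p : (ℕ × ℕ) × CqC => p.2.1.2 :=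
    Primrec.snd.comp (Primrec.fst.comp Primrec.snd)
  have ht : Primrec fun p : (ℕ × ℕ) × CqC => p.2.2 := Primrec.snd.comp Primrec.snd
  refine PrimrecPred.and ?_ (PrimrecPred.and (allMem ho (R := fun o p => o < p.2.1.1) ?_)
    (PrimrecPred.and (allMem ht
      (R := fun t p => t.1.1 < p.2.1.1 ∧ t.1.2 < p.2.1.1 ∧ WfAut p.1.1 t.2) ?_) ?_))
  · exact Primrec.eq.comp (Primrec.list_length.comp ho) (Primrec.snd.comp Primrec.fst)
  · exact Primrec.nat_lt.comp Primrec.fst (hn.comp Primrec.snd)
  · refine PrimrecPred.and ?_ (PrimrecPred.and ?_ ?_)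
    · exact Primrec.nat_lt.comp (Primrec.fst.comp (Primrec.fst.comp Primrec.fst))
        (hn.comp Primrec.snd)
    · exact Primrec.nat_lt.comp (Primrec.snd.comp (Primrec.fst.comp Primrec.fst))
        (hn.comp Primrec.snd)
    · exact wfAut_prim.comp (Primrec.pair
        (Primrec.fst.comp (Primrec.fst.comp Primrec.snd)) (Primrec.snd.comp Primrec.fst))
  · exact (h1 k).comp (Primrec.pair hn
      (Primrec.list_map ht (Primrec.fst.comp Primrec.snd).to₂))

/-- Well formed unions. -/
theorem wfUq_prim (h1 : V_TP) (k : ℕ) :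
    PrimrecPred fun p : (ℕ × ℕ) × UqC => WfUq p.1.1 p.1.2 k p.2 :=
  allMem (R := fun (q : CqC) (p : (ℕ × ℕ) × UqC) => WfCq p.1.1 p.1.2 k q) Primrec.snd
    ((wfCq_prim h1 k).comp (Primrec.pair (Primrec.fst.comp Primrec.snd) Primrec.fst))

/-- Well formed programs. -/
theorem wfPr_prim (h1 : V_TP) (a r k : ℕ) : PrimrecPred fun P : PrC => WfPr a r k P := by
  refine PrimrecPred.and (allMem (R := fun i P => WfUq (a + i) 2 k (P.1.getD i []))
    (Primrec.list_range.comp (Primrec.list_length.comp Primrec.fst)) ?_) ?_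
  · exact (wfUq_prim h1 k).comp (Primrec.pair
      (Primrec.pair (Primrec.nat_add.comp (Primrec.const a) Primrec.fst) (Primrec.const 2))
      ((Primrec.list_getD []).comp (Primrec.fst.comp Primrec.snd) Primrec.fst))
  · exact (wfUq_prim h1 k).comp (Primrec.pair
      (Primrec.pair (Primrec.nat_add.comp (Primrec.const a)
        (Primrec.list_length.comp Primrec.fst)) (Primrec.const r)) Primrec.snd)

/-- The code of a single letter. -/
theorem symC_prim : Primrec symC := by
  have h : Primrec fun l : ℕ => ([((0, (l, true)), 1)] : List TrC) :=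
    Primrec.list_cons.comp
      (Primrec.pair (Primrec.pair (Primrec.const 0) (Primrec.pair Primrec.id (Primrec.const true)))
        (Primrec.const 1)) (Primrec.const [])
  exact Primrec.pair (Primrec.const (2, ([0], [1]))) h

theorem siAut_prim (a : ℕ) : PrimrecPred fun x : AutC => SiAut a x := by
  refine PrimrecPred.or (allMem (R := fun (t : TrC) (_ : AutC) => t.1.2.1 < a) Primrec.snd ?_)
    (exMem (R := fun (t : TrC) (x : AutC) => x = symC t.1.2.1) Primrec.snd ?_)
  · exact Primrec.nat_lt.comp (Primrec.fst.comp (Primrec.snd.comp (Primrec.fst.comp Primrec.fst)))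
      (Primrec.const a)
  · exact Primrec.eq.comp Primrec.snd (symC_prim.comp
      (Primrec.fst.comp (Primrec.snd.comp (Primrec.fst.comp Primrec.fst))))

theorem siUq_prim (a : ℕ) : PrimrecPred fun Q : UqC => SiUq a Q :=
  allMem (R := fun (q : CqC) (_ : UqC) => ∀ t ∈ q.2, SiAut a t.2) Primrec.id
    (allMem (f := fun p : CqC × UqC => p.1.2) (R := fun t _ => SiAut a t.2)
      (Primrec.snd.comp Primrec.fst) ((siAut_prim a).comp (Primrec.snd.comp Primrec.fst)))

theorem siPr_prim (a : ℕ) : PrimrecPred fun P : PrC => SiPr a P :=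
  PrimrecPred.and
    (allMem (R := fun (Q : UqC) (_ : PrC) => SiUq a Q) Primrec.fst
      ((siUq_prim a).comp Primrec.fst))
    ((siUq_prim a).comp Primrec.snd)

theorem pf_CWP (h1 : V_TP) : V_WP := fun a r k =>
  PrimrecPred.and (wfPr_prim h1 a r k) (siPr_prim a)

end Pool.Agent.H3.SW
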