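import Pool.Agent.H76.SW.CT

/-!
The size of a code and the bound for the size of the query of a program are primitive recursive.
-/

namespace Pool.Agent.H3.SW

open Pool.Agent.H76.SW

theorem pow_prim : Primrec₂ (fun a b : ℕ => a ^ b) := by
  exact (Primrec₂.unpaired' (f := fun a b : ℕ => a ^ b)).1 Nat.Primrec.pow

theorem sum_prim : Primrec (List.sum : List ℕ → ℕ) := by
  have h : Primrec fun l : List ℕ => l.foldr (fun x s => x + s) 0 :=
    Primrec.list_foldr (h := fun _ p => p.1 + p.2) Primrec.id (Primrec.const 0)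
      (Primrec.nat_add.comp (Primrec.fst.comp Primrec.snd) (Primrec.snd.comp Primrec.snd)).to₂
  exact h.of_eq fun l => rfl

theorem pf_CZP : V_ZP := by
  refine ⟨?_, ?_⟩
  · unfold szC
    refine sum_prim.comp (Primrec.list_map Primrec.id ?_)
    refine Primrec.nat_add.comp (Primrec.nat_add.comp (Primrec.nat_add.comp (Primrec.const 1)
      (Primrec.fst.comp (Primrec.fst.comp Primrec.snd)))
      (Primrec.list_length.comp (Primrec.snd.comp Primrec.snd))) ?_
    refine sum_prim.comp (Primrec.list_map (Primrec.snd.comp Primrec.snd) ?_)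
    exact (Primrec.fst.comp (Primrec.fst.comp (Primrec.snd.comp Primrec.snd))).to₂
  · have h1 : Primrec fun M : ℕ => 1 + 3 * M + M ^ 2 :=
      Primrec.nat_add.comp (Primrec.nat_add.comp (Primrec.const 1)
        (Primrec.nat_mul.comp (Primrec.const 3) Primrec.id))
        (pow_prim.comp Primrec.id (Primrec.const 2))
    have h2 : Primrec fun M : ℕ => 1 + M + M * (1 + 3 * M + M ^ 2) :=
      Primrec.nat_add.comp (Primrec.nat_add.comp (Primrec.const 1) Primrec.id)
        (Primrec.nat_mul.comp Primrec.id h1)
    have h3 : Primrec fun M : ℕ => (M + 2) ^ M :=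
      pow_prim.comp (Primrec.nat_add.comp Primrec.id (Primrec.const 2)) Primrec.id
    unfold SzB
    exact Primrec.nat_mul.comp Primrec.id (Primrec.nat_add.comp h1 (Primrec.nat_mul.comp h2 h3))

end Pool.Agent.H3.SW
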